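import Pool.Agent.Lib_helper66.McMMain

/-!
`a_k` (`k` odd, `3 ≤ k`, `n ≥ 10000 k³`) is not the centre of a baby Mandelbrot set in the
`a`-plane of `r_{n,a}`.
-/

namespace Pool.Agent.Results.MP_c7ceaf_an.NoBabySet

open Pool.Agent.LibH66.McM

/-- For every odd `k ≥ 3` and every `n ≥ 10000 k³` (so that `n ≥ 3` and `k ≤ 2n - 3`), no baby
Mandelbrot set in the `a`-plane of `r_{n,a}` is centred at `a_k`. -/
theorem result : ∀ k n : ℕ, Odd k → 3 ≤ k → 10000 * k ^ 3 ≤ n →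
    3 ≤ n ∧ k ≤ 2 * n - 3 ∧ ¬ ∃ M' : Set ℂ, IsBabyMandelbrot n (aPar n k) M' := by
  intro k n hk h3 hn
  have h1 : k ≤ k ^ 3 := Nat.le_self_pow (by norm_num) k
  exact ⟨by omega, by omega, no_baby hk h3 hn⟩

end Pool.Agent.Results.MP_c7ceaf_an.NoBabySet
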